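import Pool.Agent.W_cd67d3_h45.Final

/-!
In dimensions one and two (and, trivially, zero) there are three differentiable homeomorphisms of
`ℝⁿ` which generate a dense subgroup of `Homeo(ℝⁿ)` (compact-open topology).
-/

namespace Pool.Agent.Results.MP_cd67d3_gt.DimTwo

open Pool.Agent.W_MP_cd67d3_gt

/-- For every `n ≤ 2` there are three homeomorphisms `h₁, h₂, h₃` of `ℝⁿ`, each of them
differentiable at every point, such that the group they generate is dense in the group of all
homeomorphisms of `ℝⁿ` with the compact-open topology. -/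
theorem result (n : ℕ) (hn : n ≤ 2) :
    ∃ h₁ h₂ h₃ : EuclideanSpace ℝ (Fin n) ≃ₜ EuclideanSpace ℝ (Fin n),
      Differentiable ℝ (fun x => h₁ x) ∧ Differentiable ℝ (fun x => h₂ x) ∧
      Differentiable ℝ (fun x => h₃ x) ∧
      ∀ g : EuclideanSpace ℝ (Fin n) ≃ₜ EuclideanSpace ℝ (Fin n),
        g ∈ @closure _ (homeoTopology (EuclideanSpace ℝ (Fin n)))
          (Subgroup.closure {h₁, h₂, h₃} :
            Set (EuclideanSpace ℝ (Fin n) ≃ₜ EuclideanSpace ℝ (Fin n))) :=
  Pool.Agent.W_cd67d3_h45.final n hn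

end Pool.Agent.Results.MP_cd67d3_gt.DimTwo
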