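import Pool.Agent.W_MP_cd67d3_gt.Mollify

/-!
For every `n` there are three `C^∞` diffeomorphisms of `ℝⁿ` such that the closure in
`Homeo(ℝⁿ)` of the group they generate contains every `C¹` diffeomorphism of `ℝⁿ`.
-/

open scoped ContDiff

namespace Pool.Agent.Results.MP_cd67d3_gt.ThreeDiffeos

open Pool.Agent.W_MP_cd67d3_gt

/-- For every `n` there are three `C^∞` diffeomorphisms of `ℝⁿ` such that every `C¹`
diffeomorphism of `ℝⁿ` lies in the closure (in `Homeo(ℝⁿ)`, with the compact-open topology)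
of the group they generate. -/
theorem result (n : ℕ) :
    ∃ h₁ h₂ h₃ : EuclideanSpace ℝ (Fin n) ≃ₜ EuclideanSpace ℝ (Fin n),
      IsDiffeo ⊤ h₁ ∧ IsDiffeo ⊤ h₂ ∧ IsDiffeo ⊤ h₃ ∧
      ∀ g : EuclideanSpace ℝ (Fin n) ≃ₜ EuclideanSpace ℝ (Fin n), IsDiffeo 1 g →
        g ∈ @closure _ (homeoTopology (EuclideanSpace ℝ (Fin n)))
          (Subgroup.closure {h₁, h₂, h₃} :
            Set (EuclideanSpace ℝ (Fin n) ≃ₜ EuclideanSpace ℝ (Fin n))) :=
  main n

end Pool.Agent.Results.MP_cd67d3_gt.ThreeDiffeos
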